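import Pool.Agent.Run7.h878.LF.Six

set_option autoImplicit false
set_option linter.unusedSectionVars false

/-!
# `F_4`-flows: graphs without an induced linear forest (MP_9b53a1_co)

Let `G` be a finite cubic graph without bridges, and let `F` be the union of a chain of
pieces. If the contracted graph `G / F` does not contain one of the linear forests `P9 + P1`,
`P5 + 2 P2`, `P4 + 2 P2 + P1`, `P4 + 4 P1`, `P3 + P2 + 3 P1` as an induced subgraph (for instance, if
there is no induced matching with four edges, or if every induced path with nine vertices is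
dominating), then `G` has a nowhere-zero `Z_2^3`-flow with at most four lines, and every assignment of the three
points of one of these lines to the edges at a vertex extends to such a flow.

Here a chain is a sequence of sets of edges (pieces), and `F` is their union; every piece is a circuit
or ear with at most four new edges, or any set without bridge modulo the earlier pieces with at most
four new edges, or a doubly connected set. For the empty chain the condition is a condition on `G`
itself. The five linear forests contain every linear forest with at most eight vertices and at most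
five components except `P2 + 2 P3`; so the theorem holds for the bridgeless cubic graphs without an
induced `L`, for every such linear forest `L`. The definitions of the condition are in
`Pool/Agent/Run7/h878/LF/Six.lean`.

Proof. Assume that there is no nowhere-zero 4-flow and no Petersen quotient, and contract disjoint
connected sets as long as this remains true. By the starting library (`R140/PK`, `R890/FF`) the
result `H` has no circuits with at most four edges, no vertices with one or two neighbours, at least 18
vertices of odd degree, one component with edges, and an induced path with eight vertices. A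
computer search, whose certificate is checked by the kernel (`Run7/h878/LF`), shows that `H` contains
each of the five linear forests as an induced subgraph. So `G` has six even subgraphs such that every
edge is in exactly four of them. The rest of the proof (from the six even subgraphs to the flow) is
that of the starting files TreewidthFour and CutwidthSix of this page.
-/

namespace Pool.Agent.Results.MP_9b53a1_co.InducedLinearForests

open Finset

/-- the edges at the vertex `v` -/
def star {V E : Type} [DecidableEq V] [Fintype E] (src dst : E → V) (v : V) : Finset E :=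
  univ.filter fun e => src e = v ∨ dst e = v

/-- four of the seven lines of the Fano plane: the three lines through `(1,1,1)` and the line of the
three points with exactly one coordinate zero -/
def fourLines : Finset (Finset (Fin 3 → ZMod 2)) :=
  {{![0, 0, 1], ![1, 1, 0], ![1, 1, 1]}, {![0, 1, 0], ![1, 0, 1], ![1, 1, 1]},
    {![1, 0, 0], ![0, 1, 1], ![1, 1, 1]}, {![0, 1, 1], ![1, 0, 1], ![1, 1, 0]}}

/-- the values at a vertex given by the three edges which the three matchings use -/
def P (t : Fin 3 → Fin 3) (j i : Fin 3) : ZMod 2 := if t i = j then 0 else 1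

theorem line_P : ∀ t : Fin 3 → Fin 3, ¬ (t 0 = t 1 ∧ t 1 = t 2) →
    ({P t 0, P t 1, P t 2} : Finset (Fin 3 → ZMod 2)) ∈ fourLines ∧
      P t 0 + P t 1 + P t 2 = 0 ∧ ∀ j, P t j ≠ 0 := by
  decide

def tt (x y : Fin 3 → ZMod 2) (i : Fin 3) : Fin 3 :=
  if x i = 0 then 0 else if y i = 0 then 1 else 2

theorem line_tt : ∀ x y z : Fin 3 → ZMod 2,
    ({x, y, z} : Finset (Fin 3 → ZMod 2)) ∈ fourLines →
      ¬ (tt x y 0 = tt x y 1 ∧ tt x y 1 = tt x y 2) ∧
        x = P (tt x y) 0 ∧ y = P (tt x y) 1 ∧ z = P (tt x y) 2 := by
  decide

/-- a choice of bits which separates the indices with equal values -/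
theorem bits : ∀ t : Fin 3 → Fin 3, ¬ (t 0 = t 1 ∧ t 1 = t 2) →
    ∃ b : Fin 3 → Bool, ∀ i j, t i = t j → b i = b j → i = j := by
  decide

/-- three matchings among six, one for each coordinate -/
theorem choose_three {u : Fin 6 → Fin 3} (hu : ∀ j, (univ.filter fun k => u k = j).card = 2)
    {t : Fin 3 → Fin 3} (ht : ¬ (t 0 = t 1 ∧ t 1 = t 2)) :
    ∃ σ : Fin 3 → Fin 6, Function.Injective σ ∧ ∀ i, u (σ i) = t i := by
  have h1 : ∀ j, ∃ a b : Fin 6, a ≠ b ∧ u a = j ∧ u b = j := by
    intro j
    obtain ⟨a, b, hab, h⟩ := card_eq_two.mp (hu j)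
    refine ⟨a, b, hab, ?_, ?_⟩
    · have : a ∈ univ.filter fun k => u k = j := by rw [h]; simp
      exact (mem_filter.mp this).2
    · have : b ∈ univ.filter fun k => u k = j := by rw [h]; simp
      exact (mem_filter.mp this).2
  choose α β h2 h3 h4 using h1
  obtain ⟨b, hb⟩ := bits t ht
  have h5 : ∀ i, u (if b i then β (t i) else α (t i)) = t i := by
    intro i
    by_cases h : b i
    · rw [if_pos h]; exact h4 _
    · rw [if_neg h]; exact h3 _
  refine ⟨fun i => if b i then β (t i) else α (t i), fun i j hij => ?_, h5⟩
  have h6 : t i = t j := by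
    rw [← h5 i, ← h5 j]; exact congrArg u hij
  apply hb i j h6
  have h7 : (if b i then β (t i) else α (t i)) = (if b j then β (t j) else α (t j)) := hij
  rw [h6] at h7
  cases hi : b i <;> cases hj : b j
  · rfl
  · rw [hi, hj] at h7
    exact absurd h7 (h2 _)
  · rw [hi, hj] at h7
    exact absurd h7.symm (h2 _)
  · rfl

section Graph

variable {V E : Type} [Fintype V] [DecidableEq V] [Fintype E] [DecidableEq E] {src dst : E → V}

open Pool.Agent.Run7.h878.LF.Six (dg compl6 ForestsModuloPieces six)

theorem dg_card (hl : ∀ e, src e ≠ dst e) (F : Finset E) (v : V) :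
    dg src dst F v = (F.filter fun e => e ∈ star src dst v).card := by
  unfold dg
  rw [card_filter]
  refine sum_congr rfl fun e _ => ?_
  have h := hl e
  simp only [star, mem_filter, mem_univ, true_and]
  by_cases h1 : src e = v <;> by_cases h2 : dst e = v
  · exact absurd (h1.trans h2.symm) h
  · simp [h1, h2]
  · simp [h1, h2]
  · simp [h1, h2]

/-- the edges at a vertex and the edge which each matching uses there -/
theorem at_vertex (hl : ∀ e, src e ≠ dst e) (hc : ∀ v, (star src dst v).card = 3)
    {C : Fin 6 → Finset E} (h1 : ∀ i v, Even (dg src dst (C i) v))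
    (h2 : ∀ e, (univ.filter fun i => e ∈ C i).card = 4) (v : V) :
    ∃ (a : Fin 3 → E) (u : Fin 6 → Fin 3), Function.Injective a ∧
      star src dst v = univ.image a ∧ (∀ k j, a j ∈ C k ↔ u k ≠ j) ∧
      ∀ j, (univ.filter fun k => u k = j).card = 2 := by
  have h3 : ∀ v, dg src dst univ v = 3 := by
    intro v
    rw [dg_card hl, ← hc v]
    congr 1
    ext e
    simp
  obtain ⟨h4, h5⟩ := compl6 h1 h2 h3
  obtain ⟨x, y, z, hxy, hxz, hyz, hs⟩ := card_eq_three.mp (hc v)
  have ha : Function.Injective ![x, y, z] := by
    intro i j
    fin_cases i <;> fin_cases j <;> simp [hxy, hxz, hyz, hxy.symm, hxz.symm, hyz.symm]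
  have hst : star src dst v = univ.image ![x, y, z] := by
    rw [hs]
    ext e
    simp only [mem_insert, mem_singleton, mem_image, mem_univ, true_and, Fin.exists_fin_succ,
      Matrix.cons_val_zero, Matrix.cons_val_succ, IsEmpty.exists_iff, or_false]
    constructor
    · rintro (rfl | rfl | rfl)
      · exact Or.inl rfl
      · exact Or.inr (Or.inl rfl)
      · exact Or.inr (Or.inr rfl)
    · rintro (rfl | rfl | rfl)
      · exact Or.inl rfl
      · exact Or.inr (Or.inl rfl)
      · exact Or.inr (Or.inr rfl)
  have h6 : ∀ k, ∃ j : Fin 3, ∀ j', ![x, y, z] j' ∈ C k ↔ j ≠ j' := by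
    intro k
    have h7 := h4 k v
    rw [dg_card hl] at h7
    obtain ⟨e, he⟩ := card_eq_one.mp h7
    have h8 : e ∈ (univ \ C k).filter fun e => e ∈ star src dst v := by rw [he]; simp
    rw [mem_filter, mem_sdiff] at h8
    have h9 : e ∈ univ.image ![x, y, z] := by rw [← hst]; exact h8.2
    obtain ⟨j, _, hj⟩ := mem_image.mp h9
    refine ⟨j, fun j' => ⟨fun h10 h11 => ?_, fun h10 => ?_⟩⟩
    · rw [← h11, hj] at h10
      exact h8.1.2 h10
    · by_contra h11
      have h12 : ![x, y, z] j' ∈ (univ \ C k).filter fun e => e ∈ star src dst v := by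
        rw [mem_filter, mem_sdiff]
        refine ⟨⟨mem_univ _, h11⟩, ?_⟩
        rw [hst]
        exact mem_image_of_mem _ (mem_univ _)
      rw [he, mem_singleton, ← hj] at h12
      exact h10 (ha h12).symm
  choose u hu using h6
  refine ⟨![x, y, z], u, ha, hst, hu, fun j => ?_⟩
  rw [← h5 (![x, y, z] j)]
  congr 1
  ext k
  simp only [mem_filter, mem_univ, true_and, mem_sdiff]
  rw [hu k j, not_not]

/-- **Theorem.** Let `G` be a finite cubic graph without loops such that no set of vertices is left
by exactly one edge (no bridges), which satisfies the condition above. Let the three edges at a vertex `v₀` be assigned to the three points of one of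
the four lines in `fourLines`. Then this assignment extends to a nowhere-zero `Z_2^3`-flow of `G`
such that at every vertex the values form one of the four lines. -/
theorem result (V E : Type) [Fintype V] [DecidableEq V] [Fintype E] [DecidableEq E]
    (src dst : E → V) (hl : ∀ e, src e ≠ dst e) (hc : ∀ v, (star src dst v).card = 3)
    (hb : ∀ Z : Finset V, (univ.filter fun e => ¬ (src e ∈ Z ↔ dst e ∈ Z)).card ≠ 1)
    (h : ForestsModuloPieces src dst) (v₀ : V) (g : E → Fin 3 → ZMod 2) (hg : (star src dst v₀).image g ∈ fourLines) :
    ∃ f : E → Fin 3 → ZMod 2, (∀ e, f e ≠ 0) ∧ (∀ v, ∑ e ∈ star src dst v, f e = 0) ∧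
      (∀ v, (star src dst v).image f ∈ fourLines) ∧ ∀ e ∈ star src dst v₀, f e = g e := by
  -- six even subgraphs
  obtain ⟨C, hC, h4⟩ := six src dst hb h
  -- the three matchings
  obtain ⟨a, u, ha, hst, hu, hu2⟩ := at_vertex hl hc hC h4 v₀
  have hg2 : ({g (a 0), g (a 1), g (a 2)} : Finset (Fin 3 → ZMod 2)) ∈ fourLines := by
    have : (star src dst v₀).image g = {g (a 0), g (a 1), g (a 2)} := by
      rw [hst, image_image]
      ext p
      simp only [mem_image, mem_univ, true_and, Function.comp, Fin.exists_fin_succ, mem_insert,
        mem_singleton, IsEmpty.exists_iff, or_false]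
      constructor
      · rintro (h | h | h)
        · exact Or.inl h.symm
        · exact Or.inr (Or.inl h.symm)
        · exact Or.inr (Or.inr h.symm)
      · rintro (h | h | h)
        · exact Or.inl h.symm
        · exact Or.inr (Or.inl h.symm)
        · exact Or.inr (Or.inr h.symm)
    rw [← this]
    exact hg
  obtain ⟨g0, g1, g2, g3⟩ := line_tt _ _ _ hg2
  obtain ⟨σ, hσ, hσt⟩ := choose_three hu2 g0
  -- the values of the flow at a vertex
  have key : ∀ (b : Fin 3 → E) (w : Fin 6 → Fin 3), (∀ k j, b j ∈ C k ↔ w k ≠ j) → ∀ j,
      (fun i => if b j ∈ C (σ i) then (1 : ZMod 2) else 0) = P (fun i => w (σ i)) j := by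
    intro b w hw j
    funext i
    unfold P
    by_cases h : w (σ i) = j
    · rw [if_pos h, if_neg]
      rw [hw]; exact fun h' => h' h
    · rw [if_neg h, if_pos]
      rw [hw]; exact h
  have hconst : ∀ (w : Fin 6 → Fin 3), (∀ j, (univ.filter fun k => w k = j).card = 2) →
      ¬ (w (σ 0) = w (σ 1) ∧ w (σ 1) = w (σ 2)) := by
    rintro w hw ⟨h1, h2⟩
    have h3 := hw (w (σ 2))
    have h5 : ({σ 0, σ 1, σ 2} : Finset (Fin 6)) ⊆ univ.filter fun k => w k = w (σ 2) := by
      intro k hk
      simp only [mem_insert, mem_singleton] at hk
      rw [mem_filter]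
      refine ⟨mem_univ _, ?_⟩
      rcases hk with rfl | rfl | rfl
      · exact h1.trans h2
      · exact h2
      · rfl
    have h6 := card_le_card h5
    rw [h3] at h6
    have h7 : ({σ 0, σ 1, σ 2} : Finset (Fin 6)).card = 3 := by
      rw [card_eq_three]
      exact ⟨_, _, _, fun h => absurd (hσ h) (by decide), fun h => absurd (hσ h) (by decide),
        fun h => absurd (hσ h) (by decide), rfl⟩
    omega
  have hstar : ∀ v, ∃ (b : Fin 3 → E) (t : Fin 3 → Fin 3), Function.Injective b ∧
      star src dst v = univ.image b ∧ ¬ (t 0 = t 1 ∧ t 1 = t 2) ∧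
      ∀ j, (fun i => if b j ∈ C (σ i) then (1 : ZMod 2) else 0) = P t j := by
    intro v
    obtain ⟨b, w, h1, h2, h3, h5⟩ := at_vertex hl hc hC h4 v
    exact ⟨b, fun i => w (σ i), h1, h2, hconst w h5, key b w h3⟩
  refine ⟨fun e i => if e ∈ C (σ i) then 1 else 0, fun e => ?_, fun v => ?_, fun v => ?_,
    fun e he => ?_⟩
  · obtain ⟨b, t, h1, h2, h3, h5⟩ := hstar (src e)
    have h6 : e ∈ univ.image b := by rw [← h2]; simp [star]
    obtain ⟨j, _, rfl⟩ := mem_image.mp h6
    change (fun i => if b j ∈ C (σ i) then (1 : ZMod 2) else 0) ≠ 0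
    rw [h5 j]
    exact (line_P t h3).2.2 j
  · obtain ⟨b, t, h1, h2, h3, h5⟩ := hstar v
    rw [h2, sum_image fun x _ y _ h => h1 h, Fin.sum_univ_three, h5, h5, h5]
    exact (line_P t h3).2.1
  · obtain ⟨b, t, h1, h2, h3, h5⟩ := hstar v
    have h6 : (star src dst v).image (fun e i => if e ∈ C (σ i) then (1 : ZMod 2) else 0) =
        {P t 0, P t 1, P t 2} := by
      rw [h2, image_image, ← h5 0, ← h5 1, ← h5 2]
      ext p
      simp only [mem_image, mem_univ, true_and, Function.comp, Fin.exists_fin_succ, mem_insert,
        mem_singleton, IsEmpty.exists_iff, or_false]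
      constructor
      · rintro (h | h | h)
        · exact Or.inl h.symm
        · exact Or.inr (Or.inl h.symm)
        · exact Or.inr (Or.inr h.symm)
      · rintro (h | h | h)
        · exact Or.inl h.symm
        · exact Or.inr (Or.inl h.symm)
        · exact Or.inr (Or.inr h.symm)
    rw [h6]
    exact (line_P t h3).1
  · rw [hst] at he
    obtain ⟨j, _, rfl⟩ := mem_image.mp he
    have h6 : (fun i => u (σ i)) = tt (g (a 0)) (g (a 1)) := funext hσt
    change (fun i => if a j ∈ C (σ i) then (1 : ZMod 2) else 0) = g (a j)
    rw [key a u hu j, h6]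
    fin_cases j
    · exact g1.symm
    · exact g2.symm
    · exact g3.symm

end Graph

end Pool.Agent.Results.MP_9b53a1_co.InducedLinearForests
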